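import Pool.Agent.Y5.V.Stm

/-!
# VL-UB1: differential inequalities for the truncated systems
-/

open Set Filter Topology
open scoped ComplexConjugate

set_option autoImplicit false

namespace Pool.Agent.Y328.VL.UB1

open Pool.Agent.Y6.M (Z3 C3 Coef dt kc cj nsq len adv leray IsField energy)
open Pool.Agent.Y5.V

theorem sq_zero' : Y5.V.sq (0 : C3) = 0 := by
  unfold Y5.V.sq
  simp

theorem nsq_big {R : ℕ} {k : Z3} (hk : k ∉ Fintype.piFinset (fun _ : Fin 3 =>
    Finset.Icc (-(R : ℤ)) R)) : (R : ℤ) < nsq k := by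
  rw [Fintype.mem_piFinset] at hk
  push Not at hk
  obtain ⟨j, hj⟩ := hk
  rw [Finset.mem_Icc, not_and_or, not_le, not_le] at hj
  have h1 : k j ^ 2 ≤ nsq k := by
    unfold nsq
    exact Finset.single_le_sum (f := fun j => k j ^ 2) (fun i _ => sq_nonneg (k i))
      (Finset.mem_univ j)
  have h2 : (0 : ℤ) ≤ R := Int.natCast_nonneg R
  rcases hj with h | h <;> nlinarith

theorem leray_orth {k : Z3} {a : C3} (ha : dt (kc k) a = 0) (w : C3) :
    ∑ j, conj (a j) * leray k w j = ∑ j, conj (a j) * w j := by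
  have h1 : ∑ j, conj (a j) * kc k j = 0 := by
    have h2 : ∑ j, conj (a j) * kc k j = conj (dt (kc k) a) := by
      unfold dt kc
      rw [map_sum]
      refine Finset.sum_congr rfl fun j _ => ?_
      rw [map_mul, map_intCast, mul_comm]
    rw [h2, ha, map_zero]
  unfold leray
  have h3 : ∀ j, conj (a j) * (w j - dt (kc k) w / ((nsq k : ℝ) : ℂ) * kc k j) =
      conj (a j) * w j - dt (kc k) w / ((nsq k : ℝ) : ℂ) * (conj (a j) * kc k j) := by
    intro j
    ring
  simp only [h3]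
  rw [Finset.sum_sub_distrib, ← Finset.mul_sum, h1, mul_zero, sub_zero]

theorem rhs_pair {d : Z3 → ℝ} {V : Coef} {k : Z3} (hV : dt (kc k) (V k) = 0) :
    (∑ j, conj (V k j) * rhs d V k j).re =
      -(d k * Y5.V.sq (V k)) - (∑ j, conj (V k j) * adv V k j).re := by
  have h1 : ∑ j, conj (V k j) * rhs d V k j =
      -((d k : ℝ) : ℂ) * (∑ j, conj (V k j) * V k j) - ∑ j, conj (V k j) * leray k (adv V k) j := by
    unfold rhs
    rw [Finset.mul_sum, ← Finset.sum_sub_distrib]
    refine Finset.sum_congr rfl fun j _ => ?_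
    ring
  have h2 : ∑ j, conj (V k j) * V k j = ((Y5.V.sq (V k) : ℝ) : ℂ) := by
    unfold Y5.V.sq
    push_cast
    refine Finset.sum_congr rfl fun j _ => ?_
    rw [← Complex.normSq_eq_conj_mul_self, Complex.normSq_eq_norm_sq]
    push_cast
    rfl
  rw [h1, leray_orth hV, h2, Complex.sub_re, ← Complex.ofReal_neg, ← Complex.ofReal_mul,
    Complex.ofReal_re]
  ring

theorem t_UB1 (hT : S_TRI) : S_UB1 := by
  intro m
  obtain ⟨C, hC, h⟩ := hT m
  refine ⟨2 * C, by positivity, ?_⟩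
  intro d R δ V0 Z hd hZ t ht
  classical
  set B : Finset Z3 := Fintype.piFinset (fun _ : Fin 3 => Finset.Icc (-(R : ℤ)) R) with hBd
  have hB : ∀ k, k ∉ B → ∀ s, Z s k = 0 := fun k hk s => hZ.off k (nsq_big hk) s
  have h1 : ∀ s, hE m (Z s) = ∑ k ∈ B, len k ^ (2 * m) * Y5.V.sq (Z s k) := by
    intro s
    unfold hE
    refine tsum_eq_sum fun k hk => ?_
    rw [hB k hk s, sq_zero', mul_zero]
  have hder : ∀ k, HasDerivWithinAt (fun s => Y5.V.sq (Z s k))
      (2 * (∑ j, conj (Z t k j) * rhs d (Z t) k j).re) (Icc 0 δ) t := by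
    intro k
    by_cases hk : k ≠ 0 ∧ nsq k ≤ R
    · have h2 : ∀ j, HasDerivWithinAt (fun s => ‖Z s k j‖ ^ 2)
          (2 * (conj (Z t k j) * rhs d (Z t) k j).re) (Icc 0 δ) t := by
        intro j
        have h3 := (hZ.eqn k hk.1 hk.2 j t ht).norm_sq
        have h4 : inner ℝ (Z t k j) (rhs d (Z t) k j) = (conj (Z t k j) * rhs d (Z t) k j).re := by
          rw [Complex.inner, mul_comm]
        rwa [h4] at h3
      have h5 := HasDerivWithinAt.fun_sum (u := Finset.univ) fun j _ => h2 j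
      have h6 : ∑ j, 2 * (conj (Z t k j) * rhs d (Z t) k j).re =
          2 * (∑ j, conj (Z t k j) * rhs d (Z t) k j).re := by
        rw [Complex.re_sum, Finset.mul_sum]
      rw [h6] at h5
      exact h5
    · have h2 : ∀ s, Z s k = 0 := by
        intro s
        rw [not_and_or, not_not, not_le] at hk
        rcases hk with hk | hk
        · rw [hk]
          exact hZ.zero s
        · exact hZ.off k hk s
      have h3 : (fun s => Y5.V.sq (Z s k)) = fun _ => (0 : ℝ) := by
        funext s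
        rw [h2 s, sq_zero']
      have h4 : 2 * (∑ j, conj (Z t k j) * rhs d (Z t) k j).re = 0 := by
        rw [h2 t]
        simp
      rw [h3, h4]
      exact hasDerivWithinAt_const _ _ _
  refine ⟨∑ k ∈ B, len k ^ (2 * m) * (2 * (∑ j, conj (Z t k j) * rhs d (Z t) k j).re), ?_, ?_⟩
  · have h2 : (fun s => hE m (Z s)) = fun s => ∑ k ∈ B, len k ^ (2 * m) * Y5.V.sq (Z s k) := funext h1
    rw [h2]
    exact HasDerivWithinAt.fun_sum fun k _ => (hder k).const_mul _
  · have h2 : ∀ k, 0 ≤ Y5.V.sq (Z t k) := fun k => by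
      unfold Y5.V.sq
      positivity
    have h3 : ∀ k ∈ B, len k ^ (2 * m) * (2 * (∑ j, conj (Z t k j) * rhs d (Z t) k j).re) ≤
        -2 * (len k ^ (2 * m) * (∑ j, conj (Z t k j) * adv (Z t) k j).re) := by
      intro k _
      rw [rhs_pair (hZ.div t ht k)]
      have h4 : 0 ≤ len k ^ (2 * m) * (d k * Y5.V.sq (Z t k)) :=
        mul_nonneg (pow_nonneg (Real.sqrt_nonneg _) _) (mul_nonneg (hd.nonneg k) (h2 k))
      nlinarith
    have h5 : ∑' k, len k ^ (2 * m) * (∑ j, conj (Z t k j) * adv (Z t) k j).re =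
        ∑ k ∈ B, len k ^ (2 * m) * (∑ j, conj (Z t k j) * adv (Z t) k j).re := by
      refine tsum_eq_sum fun k hk => ?_
      rw [hB k hk t]
      simp
    have h6 := h R (Z t) (fun k hk => hZ.off k hk t) (hZ.zero t) (hZ.real t ht) (hZ.div t ht)
    rw [h5] at h6
    have h7 := (abs_le.1 h6).1
    calc ∑ k ∈ B, len k ^ (2 * m) * (2 * (∑ j, conj (Z t k j) * rhs d (Z t) k j).re)
        ≤ ∑ k ∈ B, -2 * (len k ^ (2 * m) * (∑ j, conj (Z t k j) * adv (Z t) k j).re) :=
          Finset.sum_le_sum h3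
      _ = -2 * ∑ k ∈ B, len k ^ (2 * m) * (∑ j, conj (Z t k j) * adv (Z t) k j).re := by
          rw [Finset.mul_sum]
      _ ≤ 2 * C * hN (Z t) * hE m (Z t) := by linarith

end Pool.Agent.Y328.VL.UB1
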